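import Mathlib
import Pool.Agent.Lib_helper39.Widom.Uniq

set_option autoImplicit false

open MeasureTheory Filter
open scoped Topology ENNReal NNReal ComplexConjugate

namespace Pool.Agent.Results.MP_a2ac39_an.WidomBelow

/-- The positive part of the kernel `log (1 / |z - w|)`, with value `∞` on the diagonal. -/
noncomputable def kerPos (p : ℂ × ℂ) : ℝ≥0∞ :=
  if p.1 = p.2 then ∞ else ENNReal.ofReal (-Real.log ‖p.1 - p.2‖)

/-- The negative part of the kernel `log (1 / |z - w|)`, that is `max (log |z - w|) 0`. -/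
noncomputable def kerNeg (p : ℂ × ℂ) : ℝ≥0∞ := ENNReal.ofReal (Real.log ‖p.1 - p.2‖)

/-- The logarithmic energy `∬ log (1 / |z - w|) dρ(z) dρ(w)`, with values in `[-∞, ∞]`. -/
noncomputable def logEnergy (ρ : Measure ℂ) : EReal :=
  ((∫⁻ p, kerPos p ∂(ρ.prod ρ) : ℝ≥0∞) : EReal) - ((∫⁻ p, kerNeg p ∂(ρ.prod ρ) : ℝ≥0∞) : EReal)

/-- `ρ` is a Borel probability measure carried by `K`. -/
def IsProbOn (K : Set ℂ) (ρ : Measure ℂ) : Prop := IsProbabilityMeasure ρ ∧ ρ Kᶜ = 0

/-- The Robin constant of `K`: the infimum of the logarithmic energies of the probability measures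
on `K`. -/
noncomputable def robin (K : Set ℂ) : EReal := ⨅ (ρ : Measure ℂ) (_ : IsProbOn K ρ), logEnergy ρ

/-- The logarithmic capacity of `K`. -/
noncomputable def cap (K : Set ℂ) : ℝ≥0∞ := EReal.exp (-(robin K))

/-- `ν` is an equilibrium measure of `K`: a probability measure on `K` of minimal energy. -/
def IsEquilibrium (K : Set ℂ) (ν : Measure ℂ) : Prop := IsProbOn K ν ∧ logEnergy ν = robin K

/-- `P` is the monic orthogonal polynomial of degree `n` of `μ`. -/
def IsMonicOrth (μ : Measure ℂ) (n : ℕ) (P : Polynomial ℂ) : Prop :=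
  P.Monic ∧ P.natDegree = n ∧
    ∀ Q : Polynomial ℂ, Q.degree < n → ∫ z, P.eval z * conj (Q.eval z) ∂μ = 0

/-- The Widom factor attached to the polynomial `P` of degree `n`. -/
noncomputable def widom (μ : Measure ℂ) (n : ℕ) (P : Polynomial ℂ) : ℝ≥0∞ :=
  eLpNorm (fun z => P.eval z) 2 μ / cap μ.support ^ n

open Pool.Agent.WidomLib (Thin prod_diag_null)
open Pool.Agent.Lib_helper39.Widom Pool.Agent.Lib_helper88.WE

lemma measurable_kerPos : Measurable kerPos := by
  unfold kerPos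
  refine Measurable.ite (isClosed_eq continuous_fst continuous_snd).measurableSet measurable_const ?_
  fun_prop

lemma measurable_kerNeg : Measurable kerNeg := by
  unfold kerNeg
  fun_prop

/-- For a probability measure on a compact set the negative part is finite. -/
lemma lintegral_kerNeg_ne_top {R : ℝ} {ρ : Measure ℂ} (h : IsProbOn (Metric.closedBall 0 R) ρ) :
    ∫⁻ p, kerNeg p ∂(ρ.prod ρ) ≠ ∞ := by
  have := h.1
  have hae : ∀ᵐ z ∂ρ, ‖z‖ ≤ R := by
    rw [ae_iff]
    convert h.2 using 2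
    ext z; simp
  have hae1 : ∀ᵐ p ∂(ρ.prod ρ), ‖p.1‖ ≤ R := Measure.quasiMeasurePreserving_fst.ae hae
  have hae2 : ∀ᵐ p ∂(ρ.prod ρ), ‖p.2‖ ≤ R := Measure.quasiMeasurePreserving_snd.ae hae
  have hle : ∫⁻ p, kerNeg p ∂(ρ.prod ρ) ≤ ∫⁻ _, ENNReal.ofReal (2 * R) ∂(ρ.prod ρ) := by
    apply lintegral_mono_ae
    filter_upwards [hae1, hae2] with p h1 h2
    apply ENNReal.ofReal_le_ofReal
    have h6 : ‖p.1 - p.2‖ ≤ 2 * R := (norm_sub_le _ _).trans (by linarith)
    exact (Real.log_le_self (norm_nonneg _)).trans h6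
  refine ne_top_of_le_ne_top ?_ hle
  rw [lintegral_const, measure_univ, mul_one]
  exact ENNReal.ofReal_ne_top

/-- Finite energy: no mass on the diagonal, the kernel is integrable and the energy is minus its
integral. -/
lemma of_lintegral_kerPos_ne_top {R : ℝ} {ρ : Measure ℂ} (h : IsProbOn (Metric.closedBall 0 R) ρ)
    (hp : ∫⁻ p, kerPos p ∂(ρ.prod ρ) ≠ ∞) :
    NullSingletonClass ρ ∧ Integrable (fun p : ℂ × ℂ => Real.log ‖p.1 - p.2‖) (ρ.prod ρ) ∧
      logEnergy ρ = ((-(∫ p, Real.log ‖p.1 - p.2‖ ∂(ρ.prod ρ)) : ℝ) : EReal) := by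
  have := h.1
  have hae := ae_lt_top measurable_kerPos hp
  have hdiag : ∀ᵐ p ∂(ρ.prod ρ), p.1 ≠ p.2 := by
    filter_upwards [hae] with p hp h
    simp [kerPos, h] at hp
  have hatom : NullSingletonClass ρ := by
    refine ⟨fun x => ?_⟩
    have h0 : (ρ.prod ρ) ({x} ×ˢ {x}) = 0 := by
      refine measure_mono_null ?_ (ae_iff.mp hdiag)
      rintro ⟨a, b⟩ ⟨ha, hb⟩
      simp only [Set.mem_singleton_iff] at ha hb
      simp [ha, hb]
    rw [Measure.prod_prod] at h0
    exact mul_self_eq_zero.mp h0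
  have hposeq : ∫⁻ p, kerPos p ∂(ρ.prod ρ) =
      ∫⁻ p, ENNReal.ofReal (-Real.log ‖p.1 - p.2‖) ∂(ρ.prod ρ) := by
    apply lintegral_congr_ae
    filter_upwards [hdiag] with p hp
    simp [kerPos, hp]
  have hmeas : Measurable fun p : ℂ × ℂ => Real.log ‖p.1 - p.2‖ := by fun_prop
  have hint : Integrable (fun p : ℂ × ℂ => Real.log ‖p.1 - p.2‖) (ρ.prod ρ) := by
    refine ⟨hmeas.aestronglyMeasurable, ?_⟩
    rw [hasFiniteIntegral_iff_norm]
    have : ∀ p : ℂ × ℂ, ENNReal.ofReal ‖Real.log ‖p.1 - p.2‖‖ ≤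
        ENNReal.ofReal (-Real.log ‖p.1 - p.2‖) + kerNeg p := by
      intro p
      rw [Real.norm_eq_abs, kerNeg]
      rcases le_total 0 (Real.log ‖p.1 - p.2‖) with h0 | h0
      · rw [abs_of_nonneg h0]; exact le_add_self
      · rw [abs_of_nonpos h0]; exact le_self_add
    refine lt_of_le_of_lt (lintegral_mono this) ?_
    rw [lintegral_add_left (by fun_prop), ← hposeq]
    exact ENNReal.add_lt_top.mpr ⟨hp.lt_top, (lintegral_kerNeg_ne_top h).lt_top⟩
  refine ⟨hatom, hint, ?_⟩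
  have hI := integral_eq_lintegral_pos_part_sub_lintegral_neg_part hint
  rw [logEnergy, hI, hposeq]
  rw [hposeq] at hp
  have hn := lintegral_kerNeg_ne_top h
  unfold kerNeg at hn ⊢
  lift (∫⁻ p, ENNReal.ofReal (-Real.log ‖p.1 - p.2‖) ∂(ρ.prod ρ)) to ℝ≥0 using hp with a
  lift (∫⁻ p, ENNReal.ofReal (Real.log ‖p.1 - p.2‖) ∂(ρ.prod ρ)) to ℝ≥0 using hn with b
  simp only [ENNReal.coe_toReal, neg_sub]
  rfl

lemma isProbOn_mono {K L : Set ℂ} (hKL : K ⊆ L) {ρ : Measure ℂ} (h : IsProbOn K ρ) :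
    IsProbOn L ρ := ⟨h.1, measure_mono_null (Set.compl_subset_compl.mpr hKL) h.2⟩

lemma logEnergy_top {R : ℝ} {ρ : Measure ℂ} (h : IsProbOn (Metric.closedBall 0 R) ρ)
    (hp : ∫⁻ p, kerPos p ∂(ρ.prod ρ) = ∞) : logEnergy ρ = ⊤ := by
  rw [logEnergy, hp]
  have hn := lintegral_kerNeg_ne_top h
  lift (∫⁻ p, kerNeg p ∂(ρ.prod ρ)) to ℝ≥0 using hn with b
  rfl

section

variable (S : Sys)

lemma K_ball : S.K ⊆ Metric.closedBall 0 (S.b 0) := by
  rintro _ ⟨_, ⟨e, rfl⟩, rfl⟩
  rw [mem_closedBall_zero_iff, Complex.norm_real]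
  exact Sys.abs_X_le 0 e

variable {S}

lemma logEnergy_nonneg {ρ : Measure ℂ} (h : IsProbOn S.K ρ) : 0 ≤ logEnergy ρ := by
  by_cases hp : ∫⁻ p, kerPos p ∂(ρ.prod ρ) = ∞
  · rw [logEnergy_top (isProbOn_mono (K_ball S) h) hp]
    exact le_top
  · have := h.1
    obtain ⟨h1, h2, h3⟩ := of_lintegral_kerPos_ne_top (isProbOn_mono (K_ball S) h) hp
    rw [h3]
    have := energy_nonpos S ρ h.2 h2
    have h4 : (0:ℝ) ≤ -(∫ p, Real.log ‖p.1 - p.2‖ ∂(ρ.prod ρ)) := by linarith
    exact_mod_cast h4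

variable (S)

lemma isProbOn_om : IsProbOn S.K (om S) := ⟨inferInstance, om_compl S⟩

lemma kerPos_om : ∫⁻ p, kerPos p ∂((om S).prod (om S)) ≠ ∞ := by
  have hdiag : ∀ᵐ p ∂((om S).prod (om S)), ¬ p.1 = p.2 := by
    rw [ae_iff]; simpa using prod_diag_null (om S)
  have hle : ∫⁻ p, kerPos p ∂((om S).prod (om S)) ≤
      ∫⁻ p, ENNReal.ofReal ‖Real.log ‖p.1 - p.2‖‖ ∂((om S).prod (om S)) := by
    apply lintegral_mono_ae
    filter_upwards [hdiag] with p hp
    simp only [kerPos, hp, if_false]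
    exact ENNReal.ofReal_le_ofReal (neg_le_abs _)
  refine ne_top_of_le_ne_top ?_ hle
  have := (om_integrable S).2
  rw [hasFiniteIntegral_iff_norm] at this
  exact this.ne

lemma logEnergy_om : logEnergy (om S) = 0 := by
  rw [(of_lintegral_kerPos_ne_top (isProbOn_mono (K_ball S) (isProbOn_om S)) (kerPos_om S)).2.2,
    om_energy]
  simp

lemma robin_K : robin S.K = 0 := by
  apply le_antisymm
  · calc robin S.K ≤ logEnergy (om S) := iInf₂_le (om S) (isProbOn_om S)
      _ = 0 := logEnergy_om S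
  · exact le_iInf₂ fun ρ h => logEnergy_nonneg h

lemma cap_K : cap S.K = 1 := by
  rw [cap, robin_K]
  simp

variable {S}

/-- A measure of finite energy on `K` does not charge the polar sets which carry `mu`. -/
lemma null_of_equilibrium {ν : Measure ℂ} (h : IsEquilibrium S.K ν) : ν (⋃ k, S.Dk k) = 0 := by
  by_cases hp : ∫⁻ p, kerPos p ∂(ν.prod ν) = ∞
  · have h1 := logEnergy_top (isProbOn_mono (K_ball S) h.1) hp
    have h2 := h.2
    rw [h1, robin_K] at h2
    exact absurd h2 (by simp)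
  · have := h.1.1
    obtain ⟨h1, h2, -⟩ := of_lintegral_kerPos_ne_top (isProbOn_mono (K_ball S) h.1) hp
    rw [measure_iUnion_null_iff]
    intro k
    exact (S.thin_Dk k).null ν h2

/-- The equilibrium measure is unique. -/
lemma eq_om {ν : Measure ℂ} (h : IsEquilibrium S.K ν) : ν = om S := by
  by_cases hp : ∫⁻ p, kerPos p ∂(ν.prod ν) = ∞
  · have h1 := logEnergy_top (isProbOn_mono (K_ball S) h.1) hp
    have h2 := h.2
    rw [h1, robin_K] at h2
    exact absurd h2 (by simp)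
  · have := h.1.1
    obtain ⟨h1, h2, h3⟩ := of_lintegral_kerPos_ne_top (isProbOn_mono (K_ball S) h.1) hp
    refine eq_unique S ν h.1.2 h2 ?_
    have h4 := h.2
    rw [h3, robin_K] at h4
    have h5 : -(∫ p, Real.log ‖p.1 - p.2‖ ∂(ν.prod ν)) = 0 := by exact_mod_cast h4
    linarith

lemma mutuallySingular {ν : Measure ℂ} (h : IsEquilibrium S.K ν) : S.mu ⟂ₘ ν := by
  refine ⟨(⋃ k, S.Dk k)ᶜ, ?_, S.mu_Dk_compl, ?_⟩
  · exact (MeasurableSet.iUnion fun k => (S.isCompact_Dk k).isClosed.measurableSet).compl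
  · rw [compl_compl]
    exact null_of_equilibrium h

/-! ### Orthogonal polynomials -/

lemma integrable_mu {f : ℂ → ℝ} (hf : Continuous f) : Integrable f S.mu := by
  obtain ⟨B, hB⟩ := S.isCompact_K.exists_bound_of_continuousOn hf.continuousOn
  refine Integrable.of_bound hf.aestronglyMeasurable B ?_
  have : ∀ᵐ z ∂S.mu, z ∈ S.K := by
    rw [ae_iff]; exact S.mu_K_compl
  filter_upwards [this] with z hz
  exact hB z hz

variable (S)

lemma memLp_eval (P : Polynomial ℂ) : MemLp (fun z : ℂ => P.eval z) 2 S.mu := by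
  rw [memLp_two_iff_integrable_sq_norm P.continuous.aestronglyMeasurable]
  exact integrable_mu (by fun_prop)

/-- The polynomials as elements of the Hilbert space of `mu`. -/
noncomputable def toH : Polynomial ℂ →ₗ[ℂ] Lp ℂ 2 S.mu where
  toFun P := (memLp_eval S P).toLp _
  map_add' P Q := by
    rw [← MemLp.toLp_add]
    congr 1
    funext z
    simp
  map_smul' c P := by
    rw [RingHom.id_apply, ← MemLp.toLp_const_smul]
    congr 1
    funext z
    simp

lemma inner_toH (P Q : Polynomial ℂ) :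
    inner ℂ (toH S Q) (toH S P) = ∫ z, P.eval z * conj (Q.eval z) ∂S.mu := by
  rw [L2.inner_def]
  apply integral_congr_ae
  filter_upwards [(memLp_eval S P).coeFn_toLp, (memLp_eval S Q).coeFn_toLp] with z h1 h2
  change inner ℂ ((toH S Q : Lp ℂ 2 S.mu) z) ((toH S P : Lp ℂ 2 S.mu) z) = _
  have h1' : (toH S P : Lp ℂ 2 S.mu) z = P.eval z := h1
  have h2' : (toH S Q : Lp ℂ 2 S.mu) z = Q.eval z := h2
  rw [h1', h2']
  simp

lemma exists_orth (n : ℕ) : ∃ P : Polynomial ℂ, IsMonicOrth S.mu n P := by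
  let U : Submodule ℂ (Lp ℂ 2 S.mu) := (Polynomial.degreeLT ℂ n).map (toH S)
  have hfin : FiniteDimensional ℂ U := by
    have : FiniteDimensional ℂ (Polynomial.degreeLT ℂ n) :=
      Module.Finite.equiv (Polynomial.degreeLTEquiv ℂ n).symm
    infer_instance
  obtain ⟨Q, hQ, hQy⟩ : ∃ Q ∈ Polynomial.degreeLT ℂ n,
      toH S Q = U.starProjection (toH S (Polynomial.X ^ n)) := by
    have h := Submodule.starProjection_apply_mem U (toH S (Polynomial.X ^ n))
    obtain ⟨Q, hQ, h2⟩ := h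
    exact ⟨Q, hQ, h2⟩
  rw [Polynomial.mem_degreeLT] at hQ
  refine ⟨Polynomial.X ^ n - Q, Polynomial.monic_X_pow_sub hQ, ?_, ?_⟩
  · rw [Polynomial.natDegree_eq_of_degree_eq (Polynomial.degree_sub_eq_left_of_degree_lt
      (by rwa [Polynomial.degree_X_pow])), Polynomial.natDegree_X_pow]
  · intro R hR
    rw [← inner_toH, map_sub, hQy]
    have h3 : toH S R ∈ U := ⟨R, Polynomial.mem_degreeLT.mpr hR, rfl⟩
    have h4 := Submodule.sub_starProjection_mem_orthogonal (K := U) (toH S (Polynomial.X ^ n))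
    exact (Submodule.mem_orthogonal _ _).mp h4 _ h3

variable {S}

lemma toH_eq_zero {D : Polynomial ℂ} (h : toH S D = 0) : D = 0 := by
  by_contra hD
  have h1 : (fun z : ℂ => D.eval z) =ᵐ[S.mu] 0 := by
    have h2 := (memLp_eval S D).coeFn_toLp
    have h3 : (memLp_eval S D).toLp _ = 0 := h
    rw [h3] at h2
    exact h2.symm.trans (Lp.coeFn_zero _ _ _)
  have h4 : S.mu {z | ¬ D.eval z = 0} = 0 := ae_iff.mp h1
  have h5 : S.mu {z | D.eval z = 0} = 0 := by
    have hfin : {z : ℂ | D.eval z = 0}.Finite := by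
      refine (D.rootSet_finite ℂ).subset ?_
      intro z hz
      rw [Polynomial.mem_rootSet]
      exact ⟨hD, by simpa [Polynomial.aeval_def] using hz⟩
    exact hfin.measure_zero S.mu
  have h6 : S.mu Set.univ = 0 := by
    rw [← Set.union_compl_self {z : ℂ | D.eval z = 0}]
    exact measure_union_null h5 h4
  simp at h6

lemma orth_unique {n : ℕ} {P P' : Polynomial ℂ} (h : IsMonicOrth S.mu n P)
    (h' : IsMonicOrth S.mu n P') : P = P' := by
  obtain ⟨h1, h2, h3⟩ := h
  obtain ⟨h1', h2', h3'⟩ := h'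
  have hdP : P.degree = n := by rw [Polynomial.degree_eq_natDegree h1.ne_zero, h2]
  have hdP' : P'.degree = n := by rw [Polynomial.degree_eq_natDegree h1'.ne_zero, h2']
  have hD : (P - P').degree < n := by
    rw [← hdP]
    exact Polynomial.degree_sub_lt_left (by rw [hdP, hdP']) h1.ne_zero (by rw [h1, h1'])
  have e1 : toH S P - toH S P' = toH S (P - P') := (map_sub _ _ _).symm
  have h4 : inner ℂ (toH S (P - P')) (toH S P - toH S P') = (0 : ℂ) := by
    rw [inner_sub_right, inner_toH, inner_toH, h3 _ hD, h3' _ hD, sub_zero]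
  rw [e1] at h4
  have h5 := toH_eq_zero (inner_self_eq_zero.mp h4)
  exact sub_eq_zero.mp h5

end

section

variable {a : ℕ → ℝ} (ha : ∀ r : ℝ, 1 < r → ∀ᶠ n in atTop, a n ≤ r ^ n)

include ha in
lemma lower_norm {n : ℕ} (hn : 1 ≤ n) {P : Polynomial ℂ} (h1 : P.Monic) (h2 : P.natDegree = n) :
    ENNReal.ofReal (max (a n) 1) ≤ eLpNorm (fun z => P.eval z) 2 (mkSys ha).mu := by
  have hk1 : 2 ^ Nat.log 2 n ≤ n := Nat.pow_log_le_self 2 (by omega)
  have hk2 : n < 2 ^ (Nat.log 2 n + 1) := Nat.lt_pow_succ_log_self (by norm_num) n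
  have hint : Integrable (fun z : ℂ => ‖P.eval z‖ ^ 2) (mkSys ha).mu := integrable_mu (by fun_prop)
  have h3 : max (a n) 1 ^ 2 ≤ ∫ z, ‖P.eval z‖ ^ 2 ∂(mkSys ha).mu :=
    (mkSys_lower ha hk1 hk2).trans
      ((mkSys ha).mu_lower h1 (by rw [h2]; exact hk1) (by rw [h2]; exact hk2) hint)
  have h4 := (memLp_eval (mkSys ha) P).eLpNorm_eq_integral_rpow_norm (by norm_num) (by norm_num)
  rw [h4]
  apply ENNReal.ofReal_le_ofReal
  simp only [ENNReal.toReal_ofNat, Real.rpow_ofNat]
  have h5 : (0:ℝ) ≤ max (a n) 1 := zero_le_one.trans (le_max_right _ _)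
  have h6 : (max (a n) 1 ^ 2) ^ ((2:ℝ)⁻¹) = max (a n) 1 := by
    have := Real.pow_rpow_inv_natCast h5 two_ne_zero
    exact_mod_cast this
  calc max (a n) 1 = (max (a n) 1 ^ 2) ^ ((2:ℝ)⁻¹) := h6.symm
    _ ≤ _ := Real.rpow_le_rpow (by positivity) h3 (by norm_num)

include ha in
lemma lower_widom {n : ℕ} (hn : 1 ≤ n) {P : Polynomial ℂ} (h1 : P.Monic) (h2 : P.natDegree = n) :
    ENNReal.ofReal (max (a n) 1) ≤ widom (mkSys ha).mu n P := by
  rw [widom, Sys.support_mu, cap_K, one_pow, div_one]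
  exact lower_norm ha hn h1 h2

end

/-- For every sequence `a` of subexponential growth there is a Borel probability measure without
atoms whose support is a Cantor set of positive capacity on the real line, which is mutually singular
with the unique equilibrium measure of its support, which has the same support, and whose Widom
factors are at least `a n` for all `n ≥ 1` and have a positive lower limit. -/
theorem result (a : ℕ → ℝ) (ha : ∀ r : ℝ, 1 < r → ∀ᶠ n in atTop, a n ≤ r ^ n) :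
    ∃ μ : Measure ℂ, IsProbabilityMeasure μ ∧ IsCompact μ.support ∧
    (∀ z ∈ μ.support, z.im = 0) ∧ Nonempty ((ℕ → Bool) ≃ₜ μ.support) ∧
    0 < cap μ.support ∧ (∀ z, μ {z} = 0) ∧
    (∃ ν, IsEquilibrium μ.support ν ∧ (∀ ν', IsEquilibrium μ.support ν' → ν' = ν) ∧
      ν.support = μ.support ∧ μ ⟂ₘ ν) ∧
    (∀ n, ∃! P, IsMonicOrth μ n P) ∧
    (∀ P : ℕ → Polynomial ℂ, (∀ n, IsMonicOrth μ n (P n)) →
      0 < liminf (fun n => widom μ n (P n)) atTop) ∧
    ∀ (n : ℕ) (P : Polynomial ℂ), 1 ≤ n → P.Monic → P.natDegree = n →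
      ENNReal.ofReal (a n) ≤ widom μ n P := by
  set S := mkSys ha with hS
  have hsup := S.support_mu
  refine ⟨S.mu, inferInstance, ?_, ?_, ?_, ?_, fun z => measure_singleton z, ?_, ?_, ?_, ?_⟩
  · rw [hsup]
    exact S.isCompact_K
  · rw [hsup]
    rintro _ ⟨x, -, rfl⟩
    exact Complex.ofReal_im x
  · rw [hsup]
    have hinj : Function.Injective fun e : ℕ → Bool => ((S.X 0 e : ℝ) : ℂ) :=
      Complex.ofReal_injective.comp (Sys.X_injective 0)
    have hcont : Continuous fun e : ℕ → Bool => ((S.X 0 e : ℝ) : ℂ) :=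
      Complex.continuous_ofReal.comp (Sys.continuous_X 0)
    have hemb := (hcont.isClosedEmbedding hinj).isEmbedding
    have hr : Set.range (fun e : ℕ → Bool => ((S.X 0 e : ℝ) : ℂ)) = S.K := by
      unfold Sys.K Sys.J
      rw [← Set.range_comp]
      rfl
    exact ⟨hemb.toHomeomorph.trans (Homeomorph.setCongr hr)⟩
  · rw [hsup, cap_K]
    exact one_pos
  · rw [hsup]
    have hom : IsEquilibrium S.K (om S) := ⟨isProbOn_om S, by rw [robin_K, logEnergy_om]⟩
    exact ⟨om S, hom, fun ν' hν' => eq_om hν', om_support S, mutuallySingular hom⟩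
  · intro n
    obtain ⟨P, hP⟩ := exists_orth S n
    exact ⟨P, hP, fun P' hP' => orth_unique hP' hP⟩
  · intro P hP
    refine lt_of_lt_of_le one_pos (le_liminf_of_le (by isBoundedDefault) ?_)
    filter_upwards [eventually_ge_atTop 1] with n hn
    refine le_trans ?_ (lower_widom ha hn (hP n).1 (hP n).2.1)
    rw [ENNReal.one_le_ofReal]
    exact le_max_right _ _
  · intro n P hn h1 h2
    refine le_trans ?_ (lower_widom ha hn h1 h2)
    exact ENNReal.ofReal_le_ofReal (le_max_left _ _)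

end Pool.Agent.Results.MP_a2ac39_an.WidomBelow
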